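import Pool.Agent.Y962.BD.Main1

/-!
# Ballistic deposition on the line has several stationary laws

On `ℤ` ballistic deposition seen from the origin has two distinct stationary laws, whose increments
are invariant under translations and integrable, with the mean slopes `a > 0` and `-a`. (Their
convex combinations are then stationary as well.)
-/

namespace Pool.Agent.Results.MP_4bb68c_pr.DimensionOne

open MeasureTheory Filter Topology Pool.Agent.W833.BD Pool.Agent.Y962.BD

theorem result : ∃ (a : ℝ) (μ : ℤˣ → Measure (Om 1)), 0 < a ∧ μ 1 ≠ μ (-1) ∧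
    ∀ s : ℤˣ, IsProbabilityMeasure (μ s) ∧ Stationary (μ s) ∧
      (∀ᵐ g ∂(μ s), g 0 = 0) ∧
      (∀ z : V 1, (μ s).map (fun g y => g (y + z) - g z) = μ s) ∧
      ∀ x : V 1, Integrable (fun g : Om 1 => (g x : ℝ)) (μ s) ∧
        ∫ g, (g x : ℝ) ∂(μ s) = a * ((s : ℤ) : ℝ) * x 0 := by
  obtain ⟨ν, a, hν, ha, hmean⟩ := exists_nice1
  have hm : ∀ (s : ℤˣ) (x : V 1),
      ∫ g, (g x : ℝ) ∂(ν.map (Sp (Equiv.refl _) (fun _ => s))) = a * ((s : ℤ) : ℝ) * x 0 := by
    intro s x
    rw [integral_map_Sp, hmean]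
    simp only [sp, Equiv.coe_fn_mk, Equiv.refl_apply]
    push_cast
    ring
  refine ⟨a, fun s => ν.map (Sp (Equiv.refl _) (fun _ => s)), ha, ?_, ?_⟩
  · intro heq
    have h1 := hm 1 (fun _ => 1)
    have h2 := hm (-1) (fun _ => 1)
    dsimp only at heq
    rw [heq, h2] at h1
    simp at h1
    linarith
  · intro s
    have h := hν.map_Sp (Equiv.refl _) (fun _ => s)
    exact ⟨h.wstat.prob, h.wstat.stationary, h.wstat.zero, h.trans,
      fun x => ⟨h.int x, hm s x⟩⟩

end Pool.Agent.Results.MP_4bb68c_pr.DimensionOne
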